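import Pool.Agent.Helper35.LB.FlagDet
import Pool.Agent.Helper78.SchubFam

/-!
Schubert polynomials which are flagged Jacobi–Trudi determinants.
-/

set_option autoImplicit false

namespace Pool.Agent.Helper35.LB

open Finset Matrix MvPolynomial Equiv Pool.Agent.Helper43.LB Pool.Agent.Helper78.Schub

variable {n : ℕ}

/-- the flagged determinant in the variables of `S_n` -/
noncomputable def DD (n N : ℕ) (f : ℕ → ℕ) : MvPolynomial (Fin n) ℤ := (fm (xv n) n N f).det

theorem DD_congr (N : ℕ) (f g : ℕ → ℕ) (h : ∀ i < N, f i = g i) : DD n N f = DD n N g := by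
  unfold DD
  rw [fm_congr _ _ _ f g h]

theorem rename_adj_adj (k : ℕ) (h : k + 1 < n) (P : MvPolynomial (Fin n) ℤ) :
    rename (adj k h) (rename (adj k h) P) = P := by
  rw [rename_rename]
  have : (adj k h : Fin n → Fin n) ∘ (adj k h) = id := by
    funext x
    exact adj_adj k h x
  rw [this, rename_id_apply]

theorem X_sub_ne (k : ℕ) (h : k + 1 < n) :
    (X ⟨k, Nat.lt_of_succ_lt h⟩ - X ⟨k + 1, h⟩ : MvPolynomial (Fin n) ℤ) ≠ 0 := by
  intro h5
  rw [sub_eq_zero] at h5
  have := X_injective h5
  simp at this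

/-- divided difference of the flagged determinant -/
theorem DD_dd (N k : ℕ) (h : k + 1 < n) (f : ℕ → ℕ) (i0 : ℕ) (hi0 : i0 < N)
    (hf0 : f i0 = k + 1) (hf : ∀ j < N, j ≠ i0 → f j ≠ k + 1) :
    DD n N f - rename (adj k h) (DD n N f) =
      (X ⟨k, Nat.lt_of_succ_lt h⟩ - X ⟨k + 1, h⟩) * DD n N (Function.update f i0 (k + 2)) := by
  have hx0 : xv n k = X ⟨k, Nat.lt_of_succ_lt h⟩ := by rw [xv, dif_pos (by omega)]
  have hx1 : xv n (k + 1) = X ⟨k + 1, h⟩ := by rw [xv, dif_pos h]
  have h1 := det_dd (xv n) (fun j => sg k h (xv n j)) k (sg_xv_left k h) (sg_xv_right k h)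
    (fun j hj1 hj2 => sg_xv_ne k h j hj1 hj2) n N f i0 hi0 hf0 hf
  rw [← map_fm, hx0, hx1] at h1
  exact h1

/-- a step of the chain kills nothing new -/
theorem DD_ne (N k : ℕ) (h : k + 1 < n) (f : ℕ → ℕ) (i0 : ℕ) (hi0 : i0 < N)
    (hf0 : f i0 = k + 1) (hf : ∀ j < N, j ≠ i0 → f j ≠ k + 1)
    (hD : DD n N (Function.update f i0 (k + 2)) ≠ 0) : DD n N f ≠ 0 := by
  intro h0
  have h1 := DD_dd N k h f i0 hi0 hf0 hf
  rw [h0, map_zero, sub_zero] at h1
  rcases mul_eq_zero.1 h1.symm with h2 | h2
  · exact X_sub_ne k h h2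
  · exact hD h2

/-- the step -/
theorem step_perm (T : Perm (Fin n) → MvPolynomial (Fin n) ℤ) (hT : IsSchubertFamily n T)
    (N k : ℕ) (h : k + 1 < n) (f : ℕ → ℕ) (i0 : ℕ) (hi0 : i0 < N)
    (hf0 : f i0 = k + 1) (hf : ∀ j < N, j ≠ i0 → f j ≠ k + 1)
    (hD : DD n N (Function.update f i0 (k + 2)) ≠ 0) (w : Perm (Fin n)) (hw : T w = DD n N f) :
    Desc w k ∧ T (w * adj k h) = DD n N (Function.update f i0 (k + 2)) := by
  have h1 := DD_dd N k h f i0 hi0 hf0 hf
  have hd : Desc w k := by
    by_contra hnd
    have hnd' := hnd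
    rw [not_desc_of w k h] at hnd'
    have h2 := inv_mul_adj w k h hnd'
    have h3 := hT.step (w * adj k h) k h (by
      rw [mul_assoc, adj_mul_self, mul_one]; omega)
    rw [mul_assoc, adj_mul_self, mul_one] at h3
    -- `T w` is symmetric
    have h4 := congrArg (rename (adj k h)) h3
    rw [map_mul, map_sub, map_sub, rename_X, rename_X, adj_left, adj_right,
      rename_adj_adj] at h4
    have h5 : (X ⟨k, Nat.lt_of_succ_lt h⟩ - X ⟨k + 1, h⟩ : MvPolynomial (Fin n) ℤ) *
        (T w - rename (adj k h) (T w)) = 0 := by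
      linear_combination h3 + h4
    rcases mul_eq_zero.1 h5 with h6 | h6
    · exact X_sub_ne k h h6
    · rw [hw, h1] at h6
      rcases mul_eq_zero.1 h6 with h7 | h7
      · exact X_sub_ne k h h7
      · exact hD h7
  refine ⟨hd, ?_⟩
  have h2 := hT.step w k h ((inv_lt_iff w k h).2 hd)
  rw [hw, h1] at h2
  exact mul_left_cancel₀ (X_sub_ne k h) h2

/-- chains of steps -/
inductive Ch (n N a : ℕ) : (ℕ → ℕ) → (ℕ → ℕ) → ℕ → Prop
  | refl (f g : ℕ → ℕ) (h : ∀ j < N, f j = g j) : Ch n N a f g 0
  | step (f g : ℕ → ℕ) (i0 L : ℕ) (hi0 : i0 < N) (hn : f i0 < n) (ha : a < f i0)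
      (hu : ∀ j < N, j ≠ i0 → f j ≠ f i0)
      (hc : Ch n N a (Function.update f i0 (f i0 + 1)) g L) : Ch n N a f g (L + 1)

theorem Ch.spec {N a : ℕ} {f g : ℕ → ℕ} {L : ℕ} (hc : Ch n N a f g L)
    (T : Perm (Fin n) → MvPolynomial (Fin n) ℤ) (hT : IsSchubertFamily n T)
    (hD : DD n N g ≠ 0) :
    DD n N f ≠ 0 ∧ ∀ w, T w = DD n N f → ∃ w', T w' = DD n N g ∧ inv w = inv w' + L ∧
      ∀ x : Fin n, (x : ℕ) < a → w' x = w x := by
  induction hc with
  | refl f g h =>
    rw [DD_congr N f g h]
    exact ⟨hD, fun w hw => ⟨w, hw, rfl, fun x _ => rfl⟩⟩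
  | step f g i0 L hi0 hn ha hu hc ih =>
    obtain ⟨ih1, ih2⟩ := ih hD
    obtain ⟨k, hk⟩ : ∃ k, f i0 = k + 1 := ⟨f i0 - 1, by omega⟩
    rw [hk] at hu ih1 ih2 hn ha
    refine ⟨DD_ne N k hn f i0 hi0 hk hu ih1, ?_⟩
    intro w hw
    obtain ⟨hd, h2⟩ := step_perm T hT N k hn f i0 hi0 hk hu ih1 w hw
    obtain ⟨w', h3, h4, h5⟩ := ih2 _ h2
    refine ⟨w', h3, ?_, ?_⟩
    · have := inv_mul_adj_desc w k hn hd
      omega
    · intro x hx
      rw [h5 x hx, Perm.mul_apply, adj_ne k hn x (by omega) (by omega)]

theorem Ch.trans {N a : ℕ} {f g h : ℕ → ℕ} {L L' : ℕ} (h1 : Ch n N a f g L)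
    (h2 : Ch n N a g h L') : Ch n N a f h (L + L') := by
  induction h1 with
  | refl f g e =>
    rw [Nat.zero_add]
    -- replace `g` by `f` at the start
    have key : ∀ (g h : ℕ → ℕ) (L' : ℕ), Ch n N a g h L' → ∀ f : ℕ → ℕ, (∀ j < N, f j = g j) →
        Ch n N a f h L' := by
      intro g h L' hc
      induction hc with
      | refl g h e' =>
        intro f e
        exact Ch.refl f h (fun j hj => (e j hj).trans (e' j hj))
      | step g h i0 L hi0 hn ha hu hc ih =>
        intro f e
        refine Ch.step f h i0 L hi0 (by rw [e i0 hi0]; exact hn) (by rw [e i0 hi0]; exact ha) ?_ ?_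
        · intro j hj hne
          rw [e j hj, e i0 hi0]
          exact hu j hj hne
        · apply ih
          intro j hj
          by_cases h' : j = i0
          · subst h'
            rw [Function.update_self, Function.update_self, e j hj]
          · rw [Function.update_of_ne h', Function.update_of_ne h', e j hj]
    exact key g h L' h2 f e
  | step f g i0 L hi0 hn ha hu hc ih =>
    have := ih h2
    have e : L + 1 + L' = (L + L') + 1 := by ring
    rw [e]
    exact Ch.step f h i0 (L + L') hi0 hn ha hu this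

/-- moving one row -/
theorem Ch_row (N a : ℕ) (f : ℕ → ℕ) (i0 : ℕ) (hi0 : i0 < N) (d : ℕ) (hn : f i0 + d ≤ n)
    (ha : 0 < d → a < f i0)
    (hu : ∀ j < N, j ≠ i0 → f j < f i0 ∨ f i0 + d ≤ f j) :
    Ch n N a f (Function.update f i0 (f i0 + d)) d := by
  induction d generalizing f with
  | zero =>
    apply Ch.refl
    intro j hj
    by_cases h' : j = i0
    · subst h'
      rw [Function.update_self, Nat.add_zero]
    · rw [Function.update_of_ne h']
  | succ d ih =>
    refine Ch.step f _ i0 d hi0 (by omega) (ha (by omega)) ?_ ?_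
    · intro j hj hne
      have := hu j hj hne
      omega
    · have h1 := ih (Function.update f i0 (f i0 + 1)) (by rw [Function.update_self]; omega)
        (fun hd => by rw [Function.update_self]; have := ha (by omega); omega)
        (fun j hj hne => by
          rw [Function.update_self, Function.update_of_ne hne]
          have := hu j hj hne
          omega)
      rw [Function.update_self, Function.update_idem] at h1
      have e : f i0 + 1 + d = f i0 + (d + 1) := by ring
      rw [e] at h1
      exact h1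

/-- all rows, from the last one to the first one -/
theorem Ch_all (N a : ℕ) (f g : ℕ → ℕ) (h1 : ∀ i < N, f i ≤ g i) (h2 : ∀ i < N, g i ≤ n)
    (h3 : ∀ i < N, f i < g i → a < f i) (h4 : ∀ i < N, ∀ j < i, f i < g i → f j < f i)
    (h5 : ∀ i < N, ∀ j < N, i < j → f i < g i → g i ≤ g j) :
    Ch n N a f g (∑ i ∈ range N, (g i - f i)) := by
  have key : ∀ t ≤ N, Ch n N a f (fun j => if N - t ≤ j then g j else f j)
      (∑ i ∈ Ico (N - t) N, (g i - f i)) := by
    intro t
    induction t with
    | zero =>
      intro _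
      rw [Nat.sub_zero, Ico_self, sum_empty]
      apply Ch.refl
      intro j hj
      rw [if_neg (by omega)]
    | succ t ih =>
      intro ht
      have h6 := ih (by omega)
      set i0 := N - (t + 1) with hi0
      have e1 : N - t = i0 + 1 := by omega
      rw [e1] at h6
      have hi0N : i0 < N := by omega
      have e2 : ∑ i ∈ Ico i0 N, (g i - f i) = ∑ i ∈ Ico (i0 + 1) N, (g i - f i) +
          (g i0 - f i0) := by
        rw [sum_eq_sum_Ico_succ_bot hi0N, add_comm]
      rw [e2]
      refine h6.trans ?_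
      have h7 : ¬ (i0 + 1 ≤ i0) := by omega
      have h8 := Ch_row (n := n) N a (fun j => if i0 + 1 ≤ j then g j else f j) i0 hi0N
        (g i0 - f i0) (by
          simp only [if_neg h7]
          have := h1 i0 hi0N
          have := h2 i0 hi0N
          omega) (by
          simp only [if_neg h7]
          intro h9
          exact h3 i0 hi0N (by omega)) (by
          intro j hj hne
          simp only [if_neg h7]
          have h10 := h1 i0 hi0N
          rcases Nat.eq_or_lt_of_le h10 with h11 | h11
          · by_cases h12 : i0 + 1 ≤ j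
            · rw [if_pos h12]
              omega
            · omega
          · by_cases h12 : i0 + 1 ≤ j
            · rw [if_pos h12]
              have := h5 i0 hi0N j hj (by omega) h11
              omega
            · rw [if_neg h12]
              have := h4 i0 hi0N j (by omega) h11
              omega)
      have e3 : Function.update (fun j => if i0 + 1 ≤ j then g j else f j) i0
          ((fun j => if i0 + 1 ≤ j then g j else f j) i0 + (g i0 - f i0)) =
          fun j => if i0 ≤ j then g j else f j := by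
        funext j
        by_cases h12 : j = i0
        · rw [h12, Function.update_self]
          simp only [if_neg h7, le_refl, if_true]
          have := h1 i0 hi0N
          omega
        · rw [Function.update_of_ne h12]
          by_cases h13 : i0 + 1 ≤ j
          · rw [if_pos h13, if_pos (by omega)]
          · rw [if_neg h13, if_neg (by omega)]
      rw [e3] at h8
      exact h8
  have h6 := key N le_rfl
  rw [Nat.sub_self, ← range_eq_Ico] at h6
  have h7 := h6.trans (Ch.refl (n := n) (N := N) (a := a) _ g (fun j hj => by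
    simp only [Nat.zero_le, if_true]))
  exact h7

end Pool.Agent.Helper35.LB
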