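import Pool.Agent.Helper43.LB.Defs

/-!
Flagged Jacobi–Trudi determinants over a commutative ring.
-/

set_option autoImplicit false

namespace Pool.Agent.Helper35.LB

open Finset Matrix Pool.Agent.Helper43.LB

variable {R S : Type*} [CommRing R] [CommRing S]

/-- complete homogeneous sums `h_r(x_0, …, x_{f-1})` -/
def hs (x : ℕ → R) : ℕ → ℕ → R
  | 0, 0 => 1
  | 0, _ + 1 => 0
  | _ + 1, 0 => 1
  | f + 1, r + 1 => hs x f (r + 1) + x f * hs x (f + 1) r
termination_by f r => f + r

theorem hs_zero (x : ℕ → R) (f : ℕ) : hs x f 0 = 1 := by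
  cases f with
  | zero => rw [hs]
  | succ f => rw [hs]

theorem hs_zero_succ (x : ℕ → R) (r : ℕ) : hs x 0 (r + 1) = 0 := by rw [hs]

theorem hs_succ (x : ℕ → R) (f r : ℕ) :
    hs x (f + 1) (r + 1) = hs x f (r + 1) + x f * hs x (f + 1) r := by rw [hs]

/-- `h_z` for an integer `z`, zero for `z < 0` -/
def hz (x : ℕ → R) (f : ℕ) (z : ℤ) : R := if z < 0 then 0 else hs x f z.toNat

theorem hz_neg (x : ℕ → R) (f : ℕ) {z : ℤ} (h : z < 0) : hz x f z = 0 := by
  unfold hz; rw [if_pos h]

theorem hz_nat (x : ℕ → R) (f r : ℕ) : hz x f (r : ℤ) = hs x f r := by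
  unfold hz
  rw [if_neg (by omega), Int.toNat_natCast]

theorem hz_zero (x : ℕ → R) (f : ℕ) : hz x f 0 = 1 := by
  have := hz_nat x f 0
  rw [Nat.cast_zero] at this
  rw [this, hs_zero]

theorem hz_succ (x : ℕ → R) (f : ℕ) (z : ℤ) :
    hz x (f + 1) z = hz x f z + x f * hz x (f + 1) (z - 1) := by
  rcases lt_or_ge z 0 with h | h
  · rw [hz_neg x _ h, hz_neg x _ h, hz_neg x _ (by omega)]
    ring
  · obtain ⟨r, rfl⟩ := Int.eq_ofNat_of_zero_le h
    cases r with
    | zero =>
      rw [Nat.cast_zero, hz_zero, hz_zero, hz_neg x _ (by omega)]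
      ring
    | succ r =>
      have e : ((r + 1 : ℕ) : ℤ) - 1 = (r : ℤ) := by push_cast; ring
      rw [e, hz_nat, hz_nat, hz_nat, hs_succ]

theorem hz_zero_pos (x : ℕ → R) {z : ℤ} (h : 0 < z) : hz x 0 z = 0 := by
  obtain ⟨r, rfl⟩ := Int.eq_ofNat_of_zero_le h.le
  cases r with
  | zero => simp at h
  | succ r => rw [hz_nat, hs_zero_succ]

/-- only the first `f` variables matter -/
theorem hz_congr (x y : ℕ → R) (f : ℕ) (h : ∀ j < f, x j = y j) (z : ℤ) :
    hz x f z = hz y f z := by
  induction f generalizing z with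
  | zero =>
    rcases lt_trichotomy z 0 with hz | hz | hz
    · rw [hz_neg x _ hz, hz_neg y _ hz]
    · rw [hz, hz_zero, hz_zero]
    · rw [hz_zero_pos x hz, hz_zero_pos y hz]
  | succ f ih =>
    have ih' := ih (fun j hj => h j (by omega))
    rcases lt_or_ge z 0 with hneg | hpos
    · rw [hz_neg x _ hneg, hz_neg y _ hneg]
    · obtain ⟨r, rfl⟩ := Int.eq_ofNat_of_zero_le hpos
      induction r with
      | zero => rw [Nat.cast_zero, hz_zero, hz_zero]
      | succ r ihr =>
        have e : ((r + 1 : ℕ) : ℤ) - 1 = (r : ℤ) := by push_cast; ring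
        rw [hz_succ x, hz_succ y, ih', e, ihr (by omega), h f (by omega)]

theorem map_hz (φ : R →+* S) (x : ℕ → R) (f : ℕ) (z : ℤ) :
    φ (hz x f z) = hz (fun j => φ (x j)) f z := by
  induction f generalizing z with
  | zero =>
    rcases lt_trichotomy z 0 with hz | hz | hz
    · rw [hz_neg x _ hz, hz_neg _ _ hz, map_zero]
    · rw [hz, hz_zero, hz_zero, map_one]
    · rw [hz_zero_pos x hz, hz_zero_pos _ hz, map_zero]
  | succ f ih =>
    rcases lt_or_ge z 0 with hneg | hpos
    · rw [hz_neg x _ hneg, hz_neg _ _ hneg, map_zero]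
    · obtain ⟨r, rfl⟩ := Int.eq_ofNat_of_zero_le hpos
      induction r with
      | zero => rw [Nat.cast_zero, hz_zero, hz_zero, map_one]
      | succ r ihr =>
        have e : ((r + 1 : ℕ) : ℤ) - 1 = (r : ℤ) := by push_cast; ring
        have h1 := hz_succ x f ((r + 1 : ℕ) : ℤ)
        have h2 := hz_succ (fun j => φ (x j)) f ((r + 1 : ℕ) : ℤ)
        rw [e] at h1 h2
        rw [h1, h2, map_add, map_mul, ih, ihr (by omega)]

/-- peeling off the first variable -/
theorem hz_first (x : ℕ → R) (f : ℕ) (z : ℤ) :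
    hz x (f + 1) z = hz (fun j => x (j + 1)) f z + x 0 * hz x (f + 1) (z - 1) := by
  induction f generalizing z with
  | zero =>
    rw [hz_succ x 0 z]
    congr 1
    exact hz_congr _ _ 0 (by omega) z
  | succ f ih =>
    rcases lt_or_ge z 0 with hneg | hpos
    · rw [hz_neg x _ hneg, hz_neg _ _ hneg, hz_neg x _ (by omega)]
      ring
    · obtain ⟨r, rfl⟩ := Int.eq_ofNat_of_zero_le hpos
      induction r with
      | zero =>
        rw [Nat.cast_zero, hz_zero, hz_zero, hz_neg x _ (by omega)]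
        ring
      | succ r ihr =>
        have e : ((r + 1 : ℕ) : ℤ) - 1 = (r : ℤ) := by push_cast; ring
        rw [e]
        have h1 := hz_succ x (f + 1) ((r + 1 : ℕ) : ℤ)
        have h2 := ih ((r + 1 : ℕ) : ℤ)
        have h3 := ihr (by omega)
        have h4 := hz_succ (fun j => x (j + 1)) f ((r + 1 : ℕ) : ℤ)
        have h5 := hz_succ x (f + 1) (r : ℤ)
        rw [e] at h1 h2 h4
        rw [h1, h2, h4]
        linear_combination x (f + 1) * h3 - x 0 * h5

/-- The flagged Jacobi–Trudi matrix; row `i` has flag `f i` and length `n - f i`. -/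
def fm (x : ℕ → R) (n N : ℕ) (f : ℕ → ℕ) : Matrix (Fin N) (Fin N) R := fun i c =>
  hz x (f i) ((n : ℤ) - f i - (i : ℕ) + (c : ℕ))

theorem fm_congr (x : ℕ → R) (n N : ℕ) (f g : ℕ → ℕ) (h : ∀ i < N, f i = g i) :
    fm x n N f = fm x n N g := by
  funext i c
  unfold fm
  rw [h i i.2]

theorem map_fm (φ : R →+* S) (x : ℕ → R) (n N : ℕ) (f : ℕ → ℕ) :
    φ (fm x n N f).det = (fm (fun j => φ (x j)) n N f).det := by
  rw [RingHom.map_det]
  congr 1
  funext i c
  simp only [RingHom.mapMatrix_apply, Matrix.map_apply, fm]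
  exact map_hz φ x _ _

/-- The flags `1, 2, …`: a monomial. -/
theorem det_top_aux (N : ℕ) : ∀ (x : ℕ → R) (lam : ℕ → ℕ),
    Matrix.det (fun i c : Fin N => hz x ((i : ℕ) + 1) ((lam i : ℤ) - (i : ℕ) + (c : ℕ))) =
      ∏ i ∈ range N, x i ^ lam i := by
  induction N with
  | zero => intro x lam; simp
  | succ N ih =>
    intro x lam
    set A : Matrix (Fin (N + 1)) (Fin (N + 1)) R :=
      fun i c => hz x ((i : ℕ) + 1) ((lam i : ℤ) - (i : ℕ) + (c : ℕ)) with hA
    set B : Matrix (Fin (N + 1)) (Fin (N + 1)) R :=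
      fun i c => if c = 0 then A i 0 else
        hz (fun j => x (j + 1)) (i : ℕ) ((lam i : ℤ) - (i : ℕ) + (c : ℕ)) with hB
    have hAB : A.det = B.det := by
      apply Matrix.det_eq_of_forall_col_eq_smul_add_pred (fun _ => x 0)
      · intro i
        simp [hB]
      · intro i j
        have hne : (j.succ : Fin (N + 1)) ≠ 0 := Fin.succ_ne_zero j
        simp only [hB, hA, if_neg hne]
        rw [hz_first]
        congr 3
        rw [Fin.val_succ, Fin.val_castSucc]
        push_cast
        ring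
    have hpow : ∀ r : ℕ, hz x 1 (r : ℤ) = x 0 ^ r := by
      intro r
      induction r with
      | zero => rw [Nat.cast_zero, hz_zero, pow_zero]
      | succ r ihr =>
        have e : ((r + 1 : ℕ) : ℤ) - 1 = (r : ℤ) := by push_cast; ring
        rw [hz_succ, e, ihr, hz_zero_pos x (by omega), pow_succ]
        ring
    rw [hAB, Matrix.det_succ_row_zero, Fin.sum_univ_succ]
    have hrest : ∀ j : Fin N, (-1 : R) ^ ((j.succ : Fin (N + 1)) : ℕ) * B 0 j.succ *
        (B.submatrix Fin.succ (j.succ : Fin (N + 1)).succAbove).det = 0 := by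
      intro j
      have h0 : B 0 j.succ = 0 := by
        simp only [hB, if_neg (Fin.succ_ne_zero j)]
        rw [Fin.val_zero, hz_zero_pos]
        rw [Fin.val_succ]
        push_cast
        omega
      rw [h0]
      ring
    rw [sum_eq_zero (fun j _ => hrest j), add_zero]
    have h00 : B 0 0 = x 0 ^ lam 0 := by
      simp only [hB, hA, if_true]
      have := hpow (lam 0)
      simpa using this
    have hsub : (B.submatrix Fin.succ (0 : Fin (N + 1)).succAbove) =
        fun i c : Fin N => hz (fun j => x (j + 1)) ((i : ℕ) + 1)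
          (((fun j => lam (j + 1)) i : ℤ) - (i : ℕ) + (c : ℕ)) := by
      funext i c
      rw [Matrix.submatrix_apply, Fin.succAbove_zero]
      simp only [hB, if_neg (Fin.succ_ne_zero c)]
      rw [Fin.val_succ, Fin.val_succ]
      congr 1
      push_cast
      ring
    rw [hsub, ih (fun j => x (j + 1)) (fun j => lam (j + 1)), h00, prod_range_succ']
    simp
    ring

theorem det_top (x : ℕ → R) (n : ℕ) (hn : 1 ≤ n) :
    (fm x n (n - 1) (fun i => i + 1)).det = ∏ i ∈ range n, x i ^ (n - 1 - i) := by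
  have h := det_top_aux (n - 1) x (fun i => n - 1 - i)
  have e1 : fm x n (n - 1) (fun i => i + 1) =
      fun i c : Fin (n - 1) => hz x ((i : ℕ) + 1) (((n - 1 - (i : ℕ) : ℕ) : ℤ) - (i : ℕ) + (c : ℕ)) := by
    funext i c
    unfold fm
    congr 1
    have := i.2
    push_cast [Nat.cast_sub (by omega : (i : ℕ) ≤ n - 1), Nat.cast_sub (by omega : 1 ≤ n)]
    ring
  rw [e1, h]
  obtain ⟨k, rfl⟩ : ∃ k, n = k + 1 := ⟨n - 1, by omega⟩
  rw [Nat.add_sub_cancel, prod_range_succ]
  simp

/-- last rows with flag `n` can be dropped -/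
theorem det_last (x : ℕ → R) (n N : ℕ) (f : ℕ → ℕ) (h : f N = n) :
    (fm x n (N + 1) f).det = (fm x n N f).det := by
  rw [Matrix.det_succ_row _ (Fin.last N), Fin.sum_univ_castSucc]
  have hrest : ∀ j : Fin N, (-1 : R) ^ (((Fin.last N : Fin (N + 1)) : ℕ) + (j.castSucc : ℕ)) *
      fm x n (N + 1) f (Fin.last N) j.castSucc *
      ((fm x n (N + 1) f).submatrix (Fin.last N).succAbove j.castSucc.succAbove).det = 0 := by
    intro j
    have h0 : fm x n (N + 1) f (Fin.last N) j.castSucc = 0 := by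
      unfold fm
      rw [hz_neg]
      rw [Fin.val_last, Fin.val_castSucc, h]
      have := j.2
      omega
    rw [h0]
    ring
  rw [sum_eq_zero (fun j _ => hrest j), zero_add]
  have h1 : fm x n (N + 1) f (Fin.last N) (Fin.last N) = 1 := by
    unfold fm
    rw [Fin.val_last, h]
    have : (n : ℤ) - n - (N : ℕ) + (N : ℕ) = 0 := by ring
    rw [this, hz_zero]
  rw [h1, Fin.val_last]
  have h2 : (fm x n (N + 1) f).submatrix (Fin.last N).succAbove (Fin.last N).succAbove =
      fm x n N f := by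
    funext i c
    simp only [Matrix.submatrix_apply, Fin.succAbove_last]
    rfl
  rw [h2, ← two_mul, pow_mul]
  simp

theorem det_drop (x : ℕ → R) (n N M : ℕ) (f : ℕ → ℕ) (h : ∀ i, N ≤ i → i < N + M → f i = n) :
    (fm x n (N + M) f).det = (fm x n N f).det := by
  induction M with
  | zero => rfl
  | succ M ih =>
    rw [← Nat.add_assoc, det_last x n (N + M) f (h _ (by omega) (by omega)),
      ih (fun i h1 h2 => h i h1 (by omega))]

/-! ### divided differences -/

theorem hz_swap (x y : ℕ → R) (k : ℕ) (h1 : y k = x (k + 1)) (h2 : y (k + 1) = x k)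
    (h3 : ∀ j, j ≠ k → j ≠ k + 1 → y j = x j) (z : ℤ) :
    hz x (k + 1) z - hz y (k + 1) z = (x k - x (k + 1)) * hz x (k + 2) (z - 1) ∧
      hz x (k + 2) z = hz y (k + 2) z := by
  have hE : ∀ z, hz y k z = hz x k z := fun z =>
    hz_congr y x k (fun j hj => h3 j (by omega) (by omega)) z
  rcases lt_or_ge z 0 with hneg | hpos
  · rw [hz_neg x _ hneg, hz_neg y _ hneg, hz_neg x _ (by omega), hz_neg x _ hneg,
      hz_neg y _ hneg]
    simp
  · obtain ⟨r, rfl⟩ := Int.eq_ofNat_of_zero_le hpos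
    induction r with
    | zero =>
      rw [Nat.cast_zero]
      simp only [hz_zero, hz_neg x _ (by omega : (0 : ℤ) - 1 < 0)]
      simp
    | succ r ihr =>
      have e : ((r + 1 : ℕ) : ℤ) - 1 = (r : ℤ) := by push_cast; ring
      obtain ⟨i1, i2⟩ := ihr (by omega)
      have a1 := hz_succ x k ((r + 1 : ℕ) : ℤ)
      have a2 := hz_succ y k ((r + 1 : ℕ) : ℤ)
      have a3 := hz_succ x (k + 1) ((r + 1 : ℕ) : ℤ)
      have a4 := hz_succ y (k + 1) ((r + 1 : ℕ) : ℤ)
      have a5 := hz_succ x (k + 1) (r : ℤ)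
      rw [e] at a1 a2 a3 a4 ⊢
      rw [h1, hE] at a2
      rw [h2] at a4
      have g1 : hz x (k + 1) ((r + 1 : ℕ) : ℤ) - hz y (k + 1) ((r + 1 : ℕ) : ℤ) =
          (x k - x (k + 1)) * hz x (k + 2) (r : ℤ) := by
        rw [a1, a2, a5]
        linear_combination x (k + 1) * i1
      refine ⟨g1, ?_⟩
      rw [a3, a4]
      linear_combination g1 + x k * i2

theorem hz_swap_far (x y : ℕ → R) (k : ℕ) (h1 : y k = x (k + 1)) (h2 : y (k + 1) = x k)
    (h3 : ∀ j, j ≠ k → j ≠ k + 1 → y j = x j) (f : ℕ) (hf : f ≠ k + 1) (z : ℤ) :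
    hz y f z = hz x f z := by
  rcases Nat.lt_or_ge f (k + 1) with hlt | hge
  · exact hz_congr y x f (fun j hj => h3 j (by omega) (by omega)) z
  · obtain ⟨t, rfl⟩ : ∃ t, f = k + 2 + t := ⟨f - (k + 2), by omega⟩
    clear hge hf
    induction t generalizing z with
    | zero => exact (hz_swap x y k h1 h2 h3 z).2.symm
    | succ t ih =>
      have e0 : k + 2 + (t + 1) = (k + 2 + t) + 1 := by ring
      rw [e0]
      rcases lt_or_ge z 0 with hneg | hpos
      · rw [hz_neg x _ hneg, hz_neg y _ hneg]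
      · obtain ⟨r, rfl⟩ := Int.eq_ofNat_of_zero_le hpos
        induction r with
        | zero => rw [Nat.cast_zero, hz_zero, hz_zero]
        | succ r ihr =>
          have e : ((r + 1 : ℕ) : ℤ) - 1 = (r : ℤ) := by push_cast; ring
          rw [hz_succ x, hz_succ y, ih, e, ihr (by omega), h3 (k + 2 + t) (by omega) (by omega)]

theorem det_dd (x y : ℕ → R) (k : ℕ) (h1 : y k = x (k + 1)) (h2 : y (k + 1) = x k)
    (h3 : ∀ j, j ≠ k → j ≠ k + 1 → y j = x j) (n N : ℕ) (f : ℕ → ℕ) (i0 : ℕ) (hi0 : i0 < N)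
    (hf0 : f i0 = k + 1) (hf : ∀ j < N, j ≠ i0 → f j ≠ k + 1) :
    (fm x n N f).det - (fm y n N f).det =
      (x k - x (k + 1)) * (fm x n N (Function.update f i0 (k + 2))).det := by
  set I : Fin N := ⟨i0, hi0⟩ with hI
  set M := fm x n N f with hM
  set u : Fin N → R := fun c => hz y (k + 1) ((n : ℤ) - f i0 - i0 + (c : ℕ)) with hu
  set v : Fin N → R := fun c => hz x (k + 2) ((n : ℤ) - (k + 2 : ℕ) - i0 + (c : ℕ)) with hv
  have e1 : M = Matrix.updateRow M I (u + (x k - x (k + 1)) • v) := by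
    funext i c
    by_cases h : i = I
    · subst h
      rw [Matrix.updateRow_self]
      simp only [hM, fm, hu, hv, Pi.add_apply, Pi.smul_apply, smul_eq_mul, hI]
      rw [hf0]
      have h4 := (hz_swap x y k h1 h2 h3 ((n : ℤ) - (k + 1 : ℕ) - i0 + (c : ℕ))).1
      have h5 : (n : ℤ) - (k + 1 : ℕ) - i0 + (c : ℕ) - 1 = (n : ℤ) - (k + 2 : ℕ) - i0 + (c : ℕ) := by
        push_cast
        ring
      rw [h5] at h4
      linear_combination h4
    · rw [Matrix.updateRow_ne h]
  have e2 : fm y n N f = Matrix.updateRow M I u := by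
    funext i c
    by_cases h : i = I
    · subst h
      rw [Matrix.updateRow_self]
      simp only [fm, hu, hI]
      rw [hf0]
    · rw [Matrix.updateRow_ne h]
      simp only [hM, fm]
      apply hz_swap_far x y k h1 h2 h3
      apply hf i i.2
      intro h6
      exact h (Fin.ext h6)
  have e3 : fm x n N (Function.update f i0 (k + 2)) = Matrix.updateRow M I v := by
    funext i c
    by_cases h : i = I
    · subst h
      rw [Matrix.updateRow_self]
      simp only [fm, hv, hI]
      rw [Function.update_self]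
    · rw [Matrix.updateRow_ne h]
      simp only [hM, fm]
      rw [Function.update_of_ne]
      intro h6
      exact h (Fin.ext h6)
  rw [e2, e3]
  conv_lhs => rw [e1]
  rw [Matrix.updateRow_idem, Matrix.det_updateRow_add, Matrix.det_updateRow_smul]
  ring

/-! ### evaluation at one -/

theorem hs_one (f r : ℕ) : hs (fun _ => (1 : ℤ)) f r = hc f r := by
  unfold hc
  induction f generalizing r with
  | zero =>
    cases r with
    | zero => rw [hs_zero]; simp
    | succ r => rw [hs_zero_succ]; simp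
  | succ f ih =>
    induction r with
    | zero => rw [hs_zero]; simp
    | succ r ihr =>
      rw [hs_succ, ih, ihr, one_mul]
      have e1 : f + (r + 1) - 1 = f + r := by omega
      have e2 : f + 1 + r - 1 = f + r := by omega
      have e3 : f + 1 + (r + 1) - 1 = f + r + 1 := by omega
      rw [e1, e2, e3, Nat.choose_succ_succ]
      push_cast
      ring

theorem fm_one (n N : ℕ) (f : ℕ → ℕ) (hf : ∀ i < N, f i ≤ n) :
    fm (fun _ => (1 : ℤ)) n N f = jt N (fun i => n - f i) f := by
  funext i c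
  unfold fm jt hz
  have hi := hf i i.2
  by_cases h : n - f i + (c : ℕ) < (i : ℕ)
  · rw [if_pos h, if_pos (by omega)]
  · rw [if_neg h, if_neg (by omega), hs_one]
    congr 1
    simp only
    omega

end Pool.Agent.Helper35.LB
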