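import Pool.Agent.Helper94.LB.GlueDef
import Pool.Agent.Helper78.SchubFam

set_option autoImplicit false

namespace Pool.Agent.Helper35.LB

open Finset Equiv Pool.Agent.Helper43.LB Pool.Agent.Helper78.Schub

theorem exists_glue {p m : ℕ} (w : Perm (Fin (p + m)))
    (h : ∀ x : Fin (p + m), (x : ℕ) < p → w x = x) : ∃ u : Perm (Fin m), w = glue 1 u := by
  have h2 : ∀ x : Fin (p + m), p ≤ (x : ℕ) → p ≤ (w x : ℕ) := by
    intro x hx
    by_contra hlt
    push Not at hlt
    have := w.injective (h (w x) hlt)
    rw [this] at hlt
    omega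
  have h2' : ∀ x : Fin (p + m), p ≤ (x : ℕ) → p ≤ (w.symm x : ℕ) := by
    intro x hx
    by_contra hlt
    push Not at hlt
    have h3 := h (w.symm x) hlt
    rw [Equiv.apply_symm_apply] at h3
    rw [← h3] at hlt
    omega
  let u : Perm (Fin m) :=
    { toFun := fun i => ⟨(w (Fin.natAdd p i) : ℕ) - p, by
        have h3 := h2 (Fin.natAdd p i) (by simp)
        have := (w (Fin.natAdd p i)).2
        omega⟩
      invFun := fun i => ⟨(w.symm (Fin.natAdd p i) : ℕ) - p, by
        have h3 := h2' (Fin.natAdd p i) (by simp)
        have := (w.symm (Fin.natAdd p i)).2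
        omega⟩
      left_inv := by
        intro i
        apply Fin.ext
        have h3 := h2 (Fin.natAdd p i) (by simp)
        have e : Fin.natAdd p ⟨(w (Fin.natAdd p i) : ℕ) - p, by
            have := (w (Fin.natAdd p i)).2
            omega⟩ = w (Fin.natAdd p i) := by
          apply Fin.ext
          simp only [Fin.val_natAdd]
          omega
        simp only
        rw [e, Equiv.symm_apply_apply]
        simp
      right_inv := by
        intro i
        apply Fin.ext
        have h3 := h2' (Fin.natAdd p i) (by simp)
        have e : Fin.natAdd p ⟨(w.symm (Fin.natAdd p i) : ℕ) - p, by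
            have := (w.symm (Fin.natAdd p i)).2
            omega⟩ = w.symm (Fin.natAdd p i) := by
          apply Fin.ext
          simp only [Fin.val_natAdd]
          omega
        simp only
        rw [e, Equiv.apply_symm_apply]
        simp }
  refine ⟨u, ?_⟩
  apply Equiv.ext
  intro x
  induction x using Fin.addCases with
  | left i =>
    rw [glue_left, h _ (by simp)]
    rfl
  | right i =>
    rw [glue_right]
    apply Fin.ext
    have h3 := h2 (Fin.natAdd p i) (by simp)
    simp only [u, Fin.val_natAdd, Equiv.coe_fn_mk]
    omega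

theorem glue_val_left' {p m : ℕ} (u : Perm (Fin m)) (x : Fin (p + m)) (hx : (x : ℕ) < p) :
    glue (1 : Perm (Fin p)) u x = x := by
  have : x = Fin.castAdd m ⟨x, hx⟩ := rfl
  rw [this, glue_left]
  rfl

theorem inv_glue_one {p m : ℕ} (u : Perm (Fin m)) : inv (glue (1 : Perm (Fin p)) u) = inv u := by
  unfold inv
  symm
  apply Finset.card_bij (fun (q : Fin m × Fin m) _ => (Fin.natAdd p q.1, Fin.natAdd p q.2))
  · rintro ⟨a, b⟩ h
    simp only [mem_filter, mem_univ, true_and] at h ⊢
    rw [glue_right, glue_right]
    simpa using h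
  · rintro ⟨a, b⟩ _ ⟨c, d⟩ _ h
    simp only [Prod.mk.injEq] at h ⊢
    exact ⟨Fin.natAdd_injective m p h.1, Fin.natAdd_injective m p h.2⟩
  · rintro ⟨a, b⟩ h
    simp only [mem_filter, mem_univ, true_and] at h
    obtain ⟨h1, h2⟩ := h
    induction a using Fin.addCases with
    | left a =>
      exfalso
      rw [glue_left] at h2
      induction b using Fin.addCases with
      | left b =>
        rw [glue_left] at h2
        exact lt_asymm h1 h2
      | right b =>
        rw [glue_right, Fin.lt_def, Fin.val_natAdd, Fin.val_castAdd] at h2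
        have := a.2
        rw [Perm.one_apply] at h2
        omega
    | right a =>
      induction b using Fin.addCases with
      | left b =>
        exfalso
        rw [Fin.lt_def, Fin.val_natAdd, Fin.val_castAdd] at h1
        have := b.2
        omega
      | right b =>
        rw [glue_right, glue_right] at h2
        refine ⟨(a, b), ?_, rfl⟩
        simp only [mem_filter, mem_univ, true_and]
        simpa using And.intro h1 h2

theorem inv_le' {m : ℕ} (u : Perm (Fin m)) : inv u ≤ ∑ j ∈ range m, (m - 1 - j) := by
  rw [← inv_rev]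
  unfold inv
  apply Finset.card_le_card
  intro q hq
  simp only [mem_filter, mem_univ, true_and] at hq ⊢
  refine ⟨hq.1, ?_⟩
  simpa using hq.1

theorem eq_rev_of_inv {m : ℕ} (u : Perm (Fin m)) (h : ∑ j ∈ range m, (m - 1 - j) ≤ inv u) :
    u = Fin.revPerm := by
  apply eq_rev_of_no_asc
  intro i hi
  by_contra hd
  rw [not_desc_of u i hi] at hd
  have h1 := inv_mul_adj u i hi hd
  have h2 := inv_le' (u * adj i hi)
  omega

end Pool.Agent.Helper35.LB
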