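import Pool.Agent.Helper35.LB.Flag
import Pool.Agent.Helper35.LB.GluePerm

/-!
Module B of MP_660525_LB.
-/

set_option autoImplicit false

namespace Pool.Agent.Helper35.LB

open Finset Matrix MvPolynomial Equiv Pool.Agent.Helper43.LB Pool.Agent.Helper78.Schub

variable {n : ℕ}

theorem fam_one (T : Perm (Fin n) → MvPolynomial (Fin n) ℤ) (hT : IsSchubertFamily n T) :
    T 1 = 1 := by
  rw [family_unique T _ hT (isSchubertFamily_FF n)]
  exact FF_one _ _

theorem exists_desc (v : Perm (Fin n)) (hv : v ≠ 1) : ∃ (k : ℕ) (_ : k + 1 < n), Desc v k := by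
  by_contra hcon
  push Not at hcon
  apply hv
  cases n with
  | zero => exact Subsingleton.elim _ _
  | succ m =>
    have hmono : StrictMono v := by
      rw [Fin.strictMono_iff_lt_succ]
      intro i
      have h := hcon i (by omega)
      rw [not_desc_of v i (by omega)] at h
      exact h
    have hs := v.surjective
    let e : Fin (m + 1) ≃o Fin (m + 1) := StrictMono.orderIsoOfSurjective _ hmono hs
    have : e = OrderIso.refl _ := Subsingleton.elim _ _
    apply Equiv.ext
    intro i
    have h2 := congrArg (fun g : Fin (m + 1) ≃o Fin (m + 1) => g i) this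
    simpa [e] using h2

theorem fam_ne_zero (T : Perm (Fin n) → MvPolynomial (Fin n) ℤ) (hT : IsSchubertFamily n T)
    (v : Perm (Fin n)) : T v ≠ 0 := by
  have key : ∀ (L : ℕ) (v : Perm (Fin n)), inv v = L → T v ≠ 0 := by
    intro L
    induction L with
    | zero =>
      intro v hv
      by_cases h1 : v = 1
      · rw [h1, fam_one T hT]
        exact one_ne_zero
      · obtain ⟨k, hk, hd⟩ := exists_desc v h1
        have := inv_mul_adj_desc v k hk hd
        omega
    | succ L ih =>
      intro v hv h0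
      by_cases h1 : v = 1
      · rw [h1, Pool.Agent.Helper78.Schub.inv_one] at hv
        omega
      · obtain ⟨k, hk, hd⟩ := exists_desc v h1
        have h2 := inv_mul_adj_desc v k hk hd
        have h3 := hT.step v k hk ((inv_lt_iff v k hk).2 hd)
        rw [h0, map_zero, sub_zero] at h3
        rcases mul_eq_zero.1 h3 with h4 | h4
        · exact X_sub_ne k hk h4
        · exact ih (v * adj k hk) (by omega) h4
  exact key _ v rfl

theorem eq_one_of_fam (T : Perm (Fin n) → MvPolynomial (Fin n) ℤ) (hT : IsSchubertFamily n T)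
    (v : Perm (Fin n)) (hv : T v = 1) : v = 1 := by
  by_contra h1
  obtain ⟨k, hk, hd⟩ := exists_desc v h1
  have h3 := hT.step v k hk ((inv_lt_iff v k hk).2 hd)
  rw [hv, map_one, sub_self] at h3
  rcases mul_eq_zero.1 h3 with h4 | h4
  · exact X_sub_ne k hk h4
  · exact fam_ne_zero T hT _ h4

/-- all flags `n` -/
theorem DD_last (N : ℕ) : DD n N (fun _ => n) = 1 := by
  unfold DD
  have h := det_drop (xv n) n 0 N (fun _ => n) (fun _ _ _ => rfl)
  rw [Nat.zero_add] at h
  rw [h]
  exact Matrix.det_fin_zero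

theorem DD_top (T : Perm (Fin n) → MvPolynomial (Fin n) ℤ) (hT : IsSchubertFamily n T) :
    T Fin.revPerm = DD n (n - 1) (fun i => i + 1) := by
  rw [hT.top]
  unfold DD
  rcases Nat.eq_zero_or_pos n with h0 | h0
  · subst h0
    rw [Matrix.det_fin_zero]
    simp
  · rw [det_top _ n h0, Finset.prod_range]
    apply Finset.prod_congr rfl
    intro i _
    rw [xv, dif_pos i.2]

/-- the permutation of the state `η = 0` -/
theorem exists_w0 (p m : ℕ) (T : Perm (Fin (p + m)) → MvPolynomial (Fin (p + m)) ℤ)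
    (hT : IsSchubertFamily (p + m) T) :
    ∃ w : Perm (Fin (p + m)), T w = DD (p + m) (p + m - 1) (fun i => min (p + i + 1) (p + m)) ∧
      (∀ x : Fin (p + m), (x : ℕ) < p → w x = x) ∧ inv w = ∑ j ∈ range m, (m - 1 - j) := by
  have c3 : Ch (p + m) (p + m - 1) p (fun i => min (p + i + 1) (p + m)) (fun _ => p + m)
      (∑ i ∈ range (p + m - 1), (p + m - min (p + i + 1) (p + m))) :=
    Ch_all _ _ _ _ (fun i _ => min_le_right _ _) (fun i _ => le_rfl)
      (fun i _ h => by omega)
      (fun i _ j hj h => by omega)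
      (fun i _ j _ hij _ => le_rfl)
  have hD1 : DD (p + m) (p + m - 1) (fun _ => p + m) ≠ 0 := by
    rw [DD_last]
    exact one_ne_zero
  obtain ⟨h1, h2⟩ := c3.spec T hT hD1
  have c1 : Ch (p + m) (p + m - 1) 0 (fun i => i + 1) (fun i => min (p + i + 1) (p + m)) _ :=
    Ch_all _ _ _ _ (fun i hi => by omega) (fun i _ => min_le_right _ _)
      (fun i _ h => by omega)
      (fun i _ j hj h => by omega)
      (fun i _ j _ hij _ => by omega)
  obtain ⟨-, h4⟩ := c1.spec T hT h1
  obtain ⟨w, hw, -, -⟩ := h4 _ (DD_top T hT)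
  obtain ⟨w', hw', hinv, hfix⟩ := h2 w hw
  rw [DD_last] at hw'
  have h5 := eq_one_of_fam T hT w' hw'
  refine ⟨w, hw, ?_, ?_⟩
  · intro x hx
    rw [← hfix x hx, h5]
    rfl
  · rw [hinv, h5, Pool.Agent.Helper78.Schub.inv_one, zero_add]
    rcases Nat.eq_zero_or_pos m with hm | hm
    · subst hm
      rw [range_zero, sum_empty]
      apply sum_eq_zero
      intro i _
      omega
    · obtain ⟨m, rfl⟩ : ∃ m', m = m' + 1 := ⟨m - 1, by omega⟩
      have e : p + (m + 1) - 1 = m + p := by omega
      rw [e, sum_range_add, sum_range_succ]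
      have z : ∑ x ∈ range p, (p + (m + 1) - min (p + (m + x) + 1) (p + (m + 1))) = 0 :=
        sum_eq_zero (fun i _ => by omega)
      rw [z]
      have z2 : m + 1 - 1 - m = 0 := by omega
      rw [z2]
      congr 1
      apply sum_congr rfl
      intro i hi
      rw [mem_range] at hi
      omega

/-- evaluation at one -/
theorem eval_DD (N : ℕ) (f : ℕ → ℕ) (hf : ∀ i < N, f i ≤ n) (M : ℕ) (hN : N + M = n - 1)
    (hM : ∀ i, N ≤ i → f i = n) :
    MvPolynomial.eval (fun _ => (1 : ℤ)) (DD n (n - 1) f) = (jt N (fun i => n - f i) f).det := by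
  have hall : ∀ i < n - 1, f i ≤ n := fun i hi => by
    by_cases h : i < N
    · exact hf i h
    · rw [hM i (by omega)]
  have h1 : MvPolynomial.eval (fun _ => (1 : ℤ)) (DD n (n - 1) f) =
      (fm (fun j => MvPolynomial.eval (fun _ => (1 : ℤ)) (xv n j)) n (n - 1) f).det :=
    map_fm (MvPolynomial.eval (fun _ : Fin n => (1 : ℤ))) (xv n) n (n - 1) f
  rw [h1]
  have h2 : (fm (fun j => MvPolynomial.eval (fun _ => (1 : ℤ)) (xv n j)) n (n - 1) f) =
      fm (fun _ => (1 : ℤ)) n (n - 1) f := by
    funext i c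
    unfold fm
    apply hz_congr
    intro j hj
    have := hall i i.2
    rw [xv, dif_pos (by omega), MvPolynomial.eval_X]
  rw [h2, ← hN, det_drop _ n N M f (fun i h _ => hM i h), fm_one n N f hf]

theorem jt_congr (r : ℕ) (l f l' f' : ℕ → ℕ) (h1 : ∀ i < r, l i = l' i)
    (h2 : ∀ i < r, f i = f' i) : jt r l f = jt r l' f' := by
  funext i c
  unfold jt
  rw [h1 i i.2, h2 i i.2]

end Pool.Agent.Helper35.LB

namespace Pool.Agent.Helper43.LB

open Finset Matrix MvPolynomial Equiv Pool.Agent.Helper78.Schub Pool.Agent.Helper35.LB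

theorem exists_perm_det (S : (n : ℕ) → Equiv.Perm (Fin n) → MvPolynomial (Fin n) ℤ)
    (hS : ∀ n, IsSchubertFamily n (S n)) (p m : ℕ) (η : ℕ → ℕ)
    (h1 : ∀ i, η i ≤ η (i + 1) + 1) (h2 : ∀ i, η i ≤ m - 1 - i)
    (hdet : (jt (m - 1) (fun i => m - 1 - i - η i) (fun i => p + i + 1 + η i)).det ≠ 0) :
    ∃ u : Equiv.Perm (Fin m), MvPolynomial.eval (fun _ => (1 : ℤ)) (S (p + m) (glue 1 u))
      = (jt (m - 1) (fun i => m - 1 - i - η i) (fun i => p + i + 1 + η i)).det := by
  set g : ℕ → ℕ := fun i => if i < m - 1 then p + i + 1 + η i else p + m with hg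
  have hmono : ∀ i, g i ≤ g (i + 1) := by
    intro i
    simp only [hg]
    have a1 := h1 i
    have a2 := h2 i
    split_ifs <;> omega
  have hmono' : Monotone g := monotone_nat_of_le_succ hmono
  have hle : ∀ i, g i ≤ p + m := by
    intro i
    simp only [hg]
    have a2 := h2 i
    split_ifs <;> omega
  -- the evaluation
  have hev : MvPolynomial.eval (fun _ => (1 : ℤ)) (DD (p + m) (p + m - 1) g) =
      (jt (m - 1) (fun i => m - 1 - i - η i) (fun i => p + i + 1 + η i)).det := by
    rcases Nat.eq_zero_or_pos m with hm | hm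
    · subst hm
      have h3 := eval_DD (n := p + 0) 0 g (fun i hi => by omega) (p + 0 - 1) (by omega)
        (fun i _ => by simp only [hg]; rw [if_neg (by omega)])
      rw [h3, Matrix.det_fin_zero]
      exact Matrix.det_fin_zero.symm
    · rw [eval_DD (n := p + m) (m - 1) g (fun i _ => hle i) p (by omega)
        (fun i hi => by simp only [hg]; rw [if_neg (by omega)])]
      congr 1
      apply jt_congr
      · intro i hi
        simp only [hg, if_pos hi]
        omega
      · intro i hi
        simp only [hg, if_pos hi]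
  have hD : DD (p + m) (p + m - 1) g ≠ 0 := by
    intro h0
    rw [h0, map_zero] at hev
    exact hdet hev.symm
  obtain ⟨w0, hw0, hfix0, -⟩ := exists_w0 p m (S (p + m)) (hS (p + m))
  have c2 : Ch (p + m) (p + m - 1) p (fun i => min (p + i + 1) (p + m)) g _ :=
    Ch_all _ _ _ _ (fun i _ => by
        simp only [hg]
        split_ifs <;> omega) (fun i _ => hle i)
      (fun i _ h => by have := hle i; omega)
      (fun i _ j hj h => by have := hle i; omega)
      (fun i _ j _ hij _ => hmono' hij.le)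
  obtain ⟨-, h4⟩ := c2.spec (S (p + m)) (hS (p + m)) hD
  obtain ⟨w, hw, -, hfix⟩ := h4 w0 hw0
  obtain ⟨u, hu⟩ := Pool.Agent.Helper35.LB.exists_glue w
    (fun x hx => by rw [hfix x hx, hfix0 x hx])
  refine ⟨u, ?_⟩
  rw [← hu, hw, hev]

theorem eval_rev (S : (n : ℕ) → Equiv.Perm (Fin n) → MvPolynomial (Fin n) ℤ)
    (hS : ∀ n, IsSchubertFamily n (S n)) (p m : ℕ) :
    MvPolynomial.eval (fun _ => (1 : ℤ)) (S (p + m) (glue 1 (Fin.revPerm : Equiv.Perm (Fin m))))
      = (jt (m - 1) (fun i => m - 1 - i) (fun i => p + i + 1)).det := by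
  obtain ⟨w0, hw0, hfix0, hinv⟩ := exists_w0 p m (S (p + m)) (hS (p + m))
  obtain ⟨u, hu⟩ := Pool.Agent.Helper35.LB.exists_glue w0 hfix0
  have hu2 : inv u = ∑ j ∈ range m, (m - 1 - j) := by
    rw [← hinv, hu, Pool.Agent.Helper35.LB.inv_glue_one]
  have hu3 : u = Fin.revPerm := Pool.Agent.Helper35.LB.eq_rev_of_inv u hu2.ge
  rw [← hu3, ← hu, hw0]
  rcases Nat.eq_zero_or_pos m with hm | hm
  · subst hm
    have h3 := eval_DD (n := p + 0) 0 (fun i => min (p + i + 1) (p + 0))
      (fun i hi => by omega) (p + 0 - 1) (by omega) (fun i _ => by omega)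
    rw [h3, Matrix.det_fin_zero]
    exact Matrix.det_fin_zero.symm
  · rw [eval_DD (n := p + m) (m - 1) (fun i => min (p + i + 1) (p + m))
      (fun i _ => by omega) p (by omega) (fun i hi => by omega)]
    congr 1
    apply jt_congr
    · intro i hi
      omega
    · intro i hi
      omega

end Pool.Agent.Helper43.LB
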